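import Pool.Agent.X26.LF.Stm

/-! LF_BAD (backup), project LF of helper26 (MP_07add5_co). -/

set_option autoImplicit false

namespace Pool.Agent.X32.LF

open Finset Pool.Agent.X26.LF

open Classical in
theorem one_ge {m p N : ℕ} [Fact p.Prime] (hC : S_CNT) (u v : Fin m → ℤ) (A : Finset (ZMod p))
    (s : ZMod p) (hm : 1 ≤ m) (hNP : NP u v p) (hF : Free v p A)
    (ι : Fin m → Fin N) (K L : Finset (Fin m)) (w : Fin m → A ⊕ Fin N) :
    p ^ 2 * (univ.filter fun x : Fin N → ZMod p => Function.Injective ι ∧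
      ∑ j, (u j : ZMod p) * x (ι j) = s ∧ (∀ k ∈ L, (w k).isRight) ∧
      (∑ k ∈ K, (v k : ZMod p) * (w k).elim (fun a : A => (a : ZMod p)) (fun _ => 0)) +
      ∑ k ∈ L, (v k : ZMod p) * (w k).elim (fun _ => 0) x = 1 ∧ (∀ k ∈ K, (w k).isLeft)).card
      ≤ p ^ N := by
  by_cases hne : (univ.filter fun x : Fin N → ZMod p => Function.Injective ι ∧
      ∑ j, (u j : ZMod p) * x (ι j) = s ∧ (∀ k ∈ L, (w k).isRight) ∧
      (∑ k ∈ K, (v k : ZMod p) * (w k).elim (fun a : A => (a : ZMod p)) (fun _ => 0)) +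
      ∑ k ∈ L, (v k : ZMod p) * (w k).elim (fun _ => 0) x = 1 ∧ (∀ k ∈ K, (w k).isLeft)) = ∅
  · rw [hne]
    simp
  obtain ⟨x0, hx0⟩ := Finset.nonempty_iff_ne_empty.2 hne
  simp only [mem_filter, mem_univ, true_and] at hx0
  obtain ⟨hι, h1, h2, h3, h4⟩ := hx0
  set c : Fin N → ZMod p := fun i => ∑ j, if ι j = i then (u j : ZMod p) else 0 with hc
  set d : Fin N → ZMod p := fun i => ∑ k ∈ L, (v k : ZMod p) * (w k).elim (fun _ => 0)
    (fun i' => if i' = i then 1 else 0) with hd
  have hcx : ∀ x : Fin N → ZMod p, ∑ i, c i * x i = ∑ j, (u j : ZMod p) * x (ι j) := by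
    intro x
    simp only [hc, Finset.sum_mul]
    rw [Finset.sum_comm]
    refine Finset.sum_congr rfl fun j _ => ?_
    rw [Finset.sum_eq_single (ι j)]
    · simp
    · intro i _ hi
      rw [if_neg (Ne.symm hi), zero_mul]
    · simp
  have hdx : ∀ x : Fin N → ZMod p, ∑ i, d i * x i =
      ∑ k ∈ L, (v k : ZMod p) * (w k).elim (fun _ => 0) x := by
    intro x
    simp only [hd, Finset.sum_mul]
    rw [Finset.sum_comm]
    refine Finset.sum_congr rfl fun k hk => ?_
    rcases hw : w k with a | i'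
    · simp
    · simp only [Sum.elim_inr]
      rw [Finset.sum_eq_single i']
      · simp
      · intro i _ hi
        rw [if_neg (Ne.symm hi)]
        simp
      · simp
  have hcι : ∀ j, c (ι j) = (u j : ZMod p) := by
    intro j
    simp only [hc]
    rw [Finset.sum_eq_single j]
    · simp
    · intro j' _ hj
      rw [if_neg fun h => hj (hι h)]
    · simp
  have hc0 : c ≠ 0 := by
    intro h
    have := congrFun h (ι ⟨0, by omega⟩)
    rw [hcι] at this
    exact hNP.1 _ this
  have hind : ¬ ∃ l, d = fun i => l * c i := by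
    rintro ⟨l, hl⟩
    by_cases hl0 : l = 0
    · subst hl0
      have hd0 : ∑ k ∈ L, (v k : ZMod p) * (w k).elim (fun _ => 0) x0 = 0 := by
        rw [← hdx, hl]
        simp
      rw [hd0, add_zero] at h3
      refine hF K (fun k => (w k).elim (fun a : A => (a : ZMod p)) (fun _ => 0)) (fun k hk => ?_) h3
      have := h4 k hk
      rcases hw : w k with a | i'
      · simp
      · rw [hw] at this
        simp at this
    · have hex : ∀ j, ∃ k ∈ L, w k = Sum.inr (ι j) := by
        intro j
        by_contra hcon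
        push Not at hcon
        have e : d (ι j) = 0 := by
          simp only [hd]
          refine Finset.sum_eq_zero fun k hk => ?_
          rcases hw : w k with a | i'
          · simp
          · simp only [Sum.elim_inr]
            rw [if_neg, mul_zero]
            intro h
            exact hcon k hk (by rw [hw, h])
        rw [hl] at e
        simp only [hcι] at e
        exact (mul_ne_zero hl0 (hNP.1 j)) e
      choose τ hτL hτ using hex
      have hτi : Function.Injective τ := by
        intro j j' h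
        have := hτ j
        rw [h, hτ j'] at this
        exact (hι (Sum.inr_injective this)).symm
      have hτb : Function.Bijective τ := Finite.injective_iff_bijective.1 hτi
      let e := Equiv.ofBijective τ hτb
      have hLu : ∀ k, k ∈ L := fun k => by
        obtain ⟨j, rfl⟩ := hτb.2 k
        exact hτL j
      refine hNP.2 e.symm l fun k => ?_
      obtain ⟨j, rfl⟩ := hτb.2 k
      have e1 : e.symm (τ j) = j := e.symm_apply_apply j
      rw [e1]
      have e2 : d (ι j) = (v (τ j) : ZMod p) := by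
        simp only [hd]
        rw [Finset.sum_eq_single (τ j)]
        · rw [hτ j]
          simp
        · intro k _ hk
          obtain ⟨j', rfl⟩ := hτb.2 k
          rw [hτ j']
          simp only [Sum.elim_inr]
          rw [if_neg, mul_zero]
          intro h
          exact hk (by rw [hι h])
        · intro h
          exact absurd (hLu _) h
      rw [← e2, hl]
      simp only [hcι]
  have key := (hC p N c d s (1 - ∑ k ∈ K, (v k : ZMod p) *
    (w k).elim (fun a : A => (a : ZMod p)) (fun _ => 0)) hc0).2 hind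
  rw [← key]
  refine Nat.mul_le_mul_left _ (Finset.card_le_card fun x hx => ?_)
  simp only [mem_filter, mem_univ, true_and] at hx ⊢
  rw [hcx, hdx]
  exact ⟨hx.2.1, by rw [← hx.2.2.2.1]; ring⟩

open Classical in
theorem t_BAD : S_BAD := by
  intro hC m p N _ u v A s hm hNP hF
  obtain ⟨m', rfl⟩ : ∃ m', m = m' + 1 := ⟨m - 1, by omega⟩
  set T := (Fin (m' + 1) → Fin N) × Fin (m' + 1) × Fin (m' + 1) × Finset (Fin (m' + 1)) ×
    Finset (Fin (m' + 1)) × (Fin m' → A ⊕ Fin N) with hT
  let W : T → Fin (m' + 1) → A ⊕ Fin N := fun t =>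
    Fin.insertNth (α := fun _ => A ⊕ Fin N) t.2.2.1 (Sum.inr (t.1 t.2.1)) t.2.2.2.2.2
  let S : T → Finset (Fin N → ZMod p) := fun t => univ.filter fun x : Fin N → ZMod p =>
      Function.Injective t.1 ∧
      ∑ j, (u j : ZMod p) * x (t.1 j) = s ∧ (∀ k ∈ t.2.2.2.2.1, (W t k).isRight) ∧
      (∑ k ∈ t.2.2.2.1, (v k : ZMod p) * (W t k).elim (fun a : A => (a : ZMod p)) (fun _ => 0)) +
      ∑ k ∈ t.2.2.2.2.1, (v k : ZMod p) * (W t k).elim (fun _ => 0) x = 1 ∧
      (∀ k ∈ t.2.2.2.1, (W t k).isLeft)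
  have hS : ∀ t, p ^ 2 * (S t).card ≤ p ^ N := fun t =>
    one_ge hC u v A s hm hNP hF t.1 t.2.2.2.1 t.2.2.2.2.1 (W t)
  have hsub : (univ.filter fun x : Fin N → ZMod p => ∃ ι : Fin (m' + 1) ↪ Fin N,
      ∑ j, (u j : ZMod p) * x (ι j) = s ∧ ∃ j, Bad v p A x (ι j)) ⊆ univ.biUnion S := by
    intro x hx
    simp only [mem_filter, mem_univ, true_and] at hx
    obtain ⟨ι, h1, j, K, L, a, κ, hKL, haK, ⟨k, hkL, hkκ⟩, h2⟩ := hx
    -- the combined function
    let w : Fin (m' + 1) → A ⊕ Fin N := fun k' =>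
      if h : k' ∈ K then Sum.inl ⟨a k', haK k' h⟩ else Sum.inr (κ k')
    have hkK : k ∉ K := fun h => (Finset.disjoint_left.1 hKL h) hkL
    let t : T := (ι, j, k, K, L, fun i => w (k.succAbove i))
    have hW : W t = w := by
      have e1 : w k = Sum.inr (ι j) := by
        simp only [w, dif_neg hkK, hkκ]
      change Fin.insertNth (α := fun _ => A ⊕ Fin N) k (Sum.inr (ι j)) (fun i => w (k.succAbove i)) = w
      rw [← e1]
      exact Fin.insertNth_self_removeNth k w
    refine Finset.mem_biUnion.2 ⟨t, mem_univ _, ?_⟩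
    simp only [S, mem_filter, mem_univ, true_and]
    rw [hW]
    refine ⟨ι.injective, h1, fun k' hk' => ?_, ?_, fun k' hk' => ?_⟩
    · have : k' ∉ K := fun h => (Finset.disjoint_left.1 hKL h) hk'
      simp [w, this]
    · rw [← h2]
      congr 1
      · refine Finset.sum_congr rfl fun k' hk' => ?_
        have hk2 : k' ∈ K := hk'
        simp [w, hk2]
      · refine Finset.sum_congr rfl fun k' hk' => ?_
        have : k' ∉ K := fun h => (Finset.disjoint_left.1 hKL h) hk'
        simp [w, this]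
    · have hk2 : k' ∈ K := hk'
      simp [w, hk2]
  have hcard : Fintype.card T ≤ (m' + 1) ^ 2 * 4 ^ (m' + 1) * (A.card + N) ^ (2 * (m' + 1) - 1) := by
    have e : Fintype.card T = N ^ (m' + 1) * ((m' + 1) * ((m' + 1) * (2 ^ (m' + 1) *
        (2 ^ (m' + 1) * (A.card + N) ^ m')))) := by
      simp [hT, Fintype.card_prod]
    rw [e, show 2 * (m' + 1) - 1 = (m' + 1) + m' by omega, pow_add (A.card + N),
      show (4 : ℕ) = 2 * 2 by norm_num, mul_pow]
    calc N ^ (m' + 1) * ((m' + 1) * ((m' + 1) * (2 ^ (m' + 1) *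
        (2 ^ (m' + 1) * (A.card + N) ^ m'))))
        ≤ (A.card + N) ^ (m' + 1) * ((m' + 1) * ((m' + 1) * (2 ^ (m' + 1) *
        (2 ^ (m' + 1) * (A.card + N) ^ m')))) := by
          refine Nat.mul_le_mul_right _ (Nat.pow_le_pow_left (by omega) _)
      _ = _ := by ring
  calc p ^ 2 * (univ.filter fun x : Fin N → ZMod p => ∃ ι : Fin (m' + 1) ↪ Fin N,
      ∑ j, (u j : ZMod p) * x (ι j) = s ∧ ∃ j, Bad v p A x (ι j)).card
      ≤ p ^ 2 * ∑ t : T, (S t).card :=
        Nat.mul_le_mul_left _ ((Finset.card_le_card hsub).trans Finset.card_biUnion_le)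
    _ = ∑ t : T, p ^ 2 * (S t).card := Finset.mul_sum _ _ _
    _ ≤ ∑ t : T, p ^ N := Finset.sum_le_sum fun t _ => hS t
    _ = Fintype.card T * p ^ N := by simp
    _ ≤ _ := Nat.mul_le_mul_right _ hcard

end Pool.Agent.X32.LF
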